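import Mathlib

/-!
# Module REG: closed points, and dimension two (general commutative algebra)
-/

set_option autoImplicit false

namespace Pool.Agent.helper97.BG

open Polynomial Filter Module

/-- The residue of an element at a maximal ideal of a finitely generated algebra over an algebraically
closed field is a scalar. -/
theorem REG_exists_residue {k O : Type*} [Field k] [IsAlgClosed k] [CommRing O]
    [Algebra k O] [Algebra.FiniteType k O] (m : Ideal O) [hm : m.IsMaximal] :
    ∃ c : O →ₐ[k] k, ∀ x : O, x - algebraMap k O (c x) ∈ m := by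
  let _ : Field (O ⧸ m) := Ideal.Quotient.field m
  have _ : Algebra.FiniteType k (O ⧸ m) :=
    Algebra.FiniteType.of_surjective (Ideal.Quotient.mkₐ k m) (Ideal.Quotient.mkₐ_surjective k m)
  have _ : Module.Finite k (O ⧸ m) := finite_of_finite_type_of_isJacobsonRing k (O ⧸ m)
  have hbij : Function.Bijective (algebraMap k (O ⧸ m)) :=
    IsAlgClosed.algebraMap_bijective_of_isIntegral
  let e : k ≃ₐ[k] (O ⧸ m) := AlgEquiv.ofBijective (Algebra.ofId k (O ⧸ m)) hbij
  refine ⟨(e.symm : (O ⧸ m) →ₐ[k] k).comp (Ideal.Quotient.mkₐ k m), fun x => ?_⟩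
  rw [← Ideal.Quotient.eq_zero_iff_mem, map_sub, sub_eq_zero]
  have h1 : e (e.symm (Ideal.Quotient.mk m x)) = Ideal.Quotient.mk m x := e.apply_symm_apply _
  exact h1.symm

/-- The derivation `x ↦ [x - c x]` with values in `O ⧸ J`, `m ^ 2 ≤ J`. -/
noncomputable def REG_der {k O : Type*} [Field k] [CommRing O] [Algebra k O]
    (m J : Ideal O) (c : O →ₐ[k] k) (hc : ∀ x : O, x - algebraMap k O (c x) ∈ m)
    (hJ : m * m ≤ J) : Derivation k O (O ⧸ J) where
  toLinearMap := (Ideal.Quotient.mkₐ k J).toLinearMap.comp
    (LinearMap.id - (Algebra.linearMap k O).comp c.toLinearMap)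
  map_one_eq_zero' := by simp
  leibniz' x y := by
    have h : (x * y - algebraMap k O (c (x * y))) -
        (x * (y - algebraMap k O (c y)) + y * (x - algebraMap k O (c x))) ∈ J := by
      have h1 : (x * y - algebraMap k O (c (x * y))) -
          (x * (y - algebraMap k O (c y)) + y * (x - algebraMap k O (c x))) =
          - ((x - algebraMap k O (c x)) * (y - algebraMap k O (c y))) := by
        rw [map_mul, map_mul]; ring
      rw [h1]
      exact J.neg_mem (hJ (Ideal.mul_mem_mul (hc x) (hc y)))
    have h2 := (Ideal.Quotient.eq (I := J)).2 h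
    simp only [map_add, map_mul, map_sub] at h2
    simpa [Algebra.smul_def, map_mul, sub_mul, mul_sub] using h2

theorem regular_of_unr {k O : Type*} [Field k] [IsAlgClosed k] [CommRing O] [IsDomain O]
    [Algebra k O] [Algebra.FiniteType k O] (m : Ideal O) [m.IsMaximal] {s t f : O}
    (hf : f ∉ m) (h : ∀ x : O, f • KaehlerDifferential.D k O x ∈
      Submodule.span O {KaehlerDifferential.D k O s, KaehlerDifferential.D k O t}) :
    ∃ s' t' : Localization.AtPrime m,
      IsLocalRing.maximalIdeal (Localization.AtPrime m) = Ideal.span {s', t'} := by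
  obtain ⟨c, hc⟩ := REG_exists_residue (k := k) m
  set s0 : O := s - algebraMap k O (c s) with hs0
  set t0 : O := t - algebraMap k O (c t) with ht0
  set J : Ideal O := Ideal.span {s0, t0} ⊔ m * m with hJdef
  have hJ : m * m ≤ J := le_sup_right
  have hs0J : s0 ∈ J := (le_sup_left : Ideal.span {s0, t0} ≤ J) (Ideal.subset_span (by simp))
  have ht0J : t0 ∈ J := (le_sup_left : Ideal.span {s0, t0} ≤ J) (Ideal.subset_span (by simp))
  let D := REG_der m J c hc hJ
  have hD : ∀ x, D x = Ideal.Quotient.mk J (x - algebraMap k O (c x)) := fun x => rfl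
  have hker : ∀ x, f • D x = 0 := by
    intro x
    have h1 : Submodule.span O {KaehlerDifferential.D k O s, KaehlerDifferential.D k O t} ≤
        LinearMap.ker D.liftKaehlerDifferential := by
      rw [Submodule.span_le]
      rintro _ (rfl | rfl)
      · simp only [SetLike.mem_coe, LinearMap.mem_ker, Derivation.liftKaehlerDifferential_comp_D]
        rw [hD, Ideal.Quotient.eq_zero_iff_mem]; exact hs0J
      · simp only [SetLike.mem_coe, LinearMap.mem_ker, Derivation.liftKaehlerDifferential_comp_D]
        rw [hD, Ideal.Quotient.eq_zero_iff_mem]; exact ht0J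
    have h2 := h1 (h x)
    rwa [LinearMap.mem_ker, map_smul, Derivation.liftKaehlerDifferential_comp_D] at h2
  have hmJ : ∀ x ∈ m, x ∈ J := by
    intro x hx
    have hcx : c x = 0 := by
      by_contra hne
      have h1 : algebraMap k O (c x) ∈ m := by
        have := m.sub_mem hx (hc x)
        simpa using this
      have h2 : (1 : O) ∈ m := by
        have := m.mul_mem_left (algebraMap k O (c x)⁻¹) h1
        rwa [← map_mul, inv_mul_cancel₀ hne, map_one] at this
      exact (Ideal.IsPrime.ne_top inferInstance : m ≠ ⊤) ((Ideal.eq_top_iff_one m).2 h2)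
    have h1 : f * x ∈ J := by
      have := hker x
      rw [hD, hcx, map_zero, sub_zero, Algebra.smul_def, Ideal.Quotient.algebraMap_eq, ← map_mul,
        Ideal.Quotient.eq_zero_iff_mem] at this
      exact this
    have hcf : c f ≠ 0 := by
      intro h0
      have := hc f
      rw [h0, map_zero, sub_zero] at this
      exact hf this
    have h2 : algebraMap k O (c f) * x ∈ J := by
      have h3 : algebraMap k O (c f) * x = f * x - (f - algebraMap k O (c f)) * x := by ring
      rw [h3]
      exact J.sub_mem h1 (hJ (Ideal.mul_mem_mul (hc f) hx))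
    have h3 := J.mul_mem_left (algebraMap k O (c f)⁻¹) h2
    rwa [← mul_assoc, ← map_mul, inv_mul_cancel₀ hcf, map_one, one_mul] at h3
  have _ : IsNoetherianRing O := Algebra.FiniteType.isNoetherianRing k O
  have _ : IsNoetherianRing (Localization.AtPrime m) :=
    IsLocalization.isNoetherianRing m.primeCompl _ inferInstance
  set A := Localization.AtPrime m
  set φ := algebraMap O A
  have hM : IsLocalRing.maximalIdeal A = m.map φ :=
    (Localization.AtPrime.map_eq_maximalIdeal (I := m)).symm
  refine ⟨φ s0, φ t0, le_antisymm ?_ ?_⟩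
  · have hle : IsLocalRing.maximalIdeal A ≤ Ideal.span {φ s0, φ t0} ⊔
        IsLocalRing.maximalIdeal A • IsLocalRing.maximalIdeal A := by
      have h1 : m ≤ J := fun x hx => hmJ x hx
      have h2 : m.map φ ≤ J.map φ := Ideal.map_mono h1
      rw [hJdef, Ideal.map_sup, Ideal.map_mul, Ideal.map_span, Set.image_pair, ← hM] at h2
      simpa [smul_eq_mul] using h2
    exact Submodule.le_of_le_smul_of_le_jacobson_bot (IsNoetherian.noetherian _)
      (IsLocalRing.maximalIdeal_le_jacobson _) hle
  · rw [Ideal.span_le, hM]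
    rintro _ (rfl | rfl)
    · exact Ideal.mem_map_of_mem _ (hc s)
    · exact Ideal.mem_map_of_mem _ (hc t)

theorem dim_two {k O : Type*} [Field k] [CommRing O] [IsDomain O]
    [Algebra k O] [Algebra.FiniteType k O] (htr : Algebra.trdeg k O = 2) (p q : Ideal O)
    (hp : p.IsPrime) (hq : q.IsPrime) (h0 : p ≠ ⊥) (hpq : p < q) : q.IsMaximal := by
  obtain ⟨n, g, hinj, hint⟩ := exists_integral_inj_algHom_of_fg k O
  have hn : n ≤ 2 := by
    have h1 := lift_trdeg_le_of_injective g hinj
    rw [htr, MvPolynomial.trdeg_of_isDomain] at h1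
    simp at h1
    exact_mod_cast h1
  by_contra hmax
  obtain ⟨m, hm, hqm⟩ := Ideal.exists_le_maximal q hq.ne_top
  have hqm' : q < m := lt_of_le_of_ne hqm (fun h => hmax (h ▸ hm))
  let _ : Algebra (MvPolynomial (Fin n) k) O := g.toRingHom.toAlgebra
  have _ : Algebra.IsIntegral (MvPolynomial (Fin n) k) O := ⟨hint⟩
  have hbot : (⊥ : Ideal O) < p := bot_lt_iff_ne_bot.2 h0
  have hmp := hm.isPrime
  have e1 := Ideal.IsIntegral.comap_lt_comap (R := MvPolynomial (Fin n) k) hbot
  have e2 := Ideal.IsIntegral.comap_lt_comap (R := MvPolynomial (Fin n) k) hpq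
  have e3 := Ideal.IsIntegral.comap_lt_comap (R := MvPolynomial (Fin n) k) hqm'
  have hdim : ringKrullDim (MvPolynomial (Fin n) k) = n := by
    simp
  let R := MvPolynomial (Fin n) k
  let P (I : Ideal O) [I.IsPrime] : PrimeSpectrum R :=
    ⟨I.comap (algebraMap R O), Ideal.comap_isPrime _ _⟩
  have l1 : P ⊥ < P p := e1
  have l2 : P p < P q := e2
  have l3 : P q < P m := e3
  let c : LTSeries (PrimeSpectrum R) :=
    { length := 3
      toFun := ![P ⊥, P p, P q, P m]
      step := by
        intro i
        fin_cases i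
        · exact l1
        · exact l2
        · exact l3 }
  have hc : c.length = 3 := rfl
  have h3 := Order.LTSeries.length_le_krullDim c
  rw [hc] at h3
  have h4 : ((3 : ℕ) : WithBot ℕ∞) ≤ ((n : ℕ) : WithBot ℕ∞) := by
    have : Order.krullDim (PrimeSpectrum R) = n := hdim
    rw [this] at h3
    exact_mod_cast h3
  have h5 : (3 : ℕ) ≤ n := by exact_mod_cast h4
  omega

end Pool.Agent.helper97.BG
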